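import Mathlib
import Pool.Agent.R234.HK.Stmt
import Pool.Agent.R234.HK.M

/-!
# Hilbert-Schmidt Hankel operators on bounded Reinhardt domains

The theorem `result` answers Q1 of `MP_dc9318_an` in the negative.  The definitions are in
`Pool.Agent.R234.HK.Stmt`.
-/

set_option autoImplicit false

open Pool.Agent.R234.HK

/-- Let `n ≥ 2`, `Ω` a bounded Reinhardt domain in `ℂⁿ` and `f` holomorphic on `Ω`.  If the Hankel
operator `H_{f̄}` is Hilbert-Schmidt, then it is zero and `f` is constant. -/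
theorem Pool.Agent.Results.MP_dc9318_an.NoHilbertSchmidt.result
    (n : ℕ) (hn : 2 ≤ n) (Ω : Set (Fin n → ℂ)) (hΩ : IsOpen Ω) (hcon : IsConnected Ω)
    (hb : Bornology.IsBounded Ω) (hR : IsReinhardt Ω)
    (f : (Fin n → ℂ) → ℂ) (hf : DifferentiableOn ℂ f Ω)
    (T : ((Fin n → ℂ) → ℂ) → (Fin n → ℂ) → ℂ) (h : IsHilbertSchmidtHankel Ω f T) :
    (∀ G, InA2 Ω G → AeEq Ω (T G) fun _ => 0) ∧ ∃ c : ℂ, ∀ z ∈ Ω, f z = c :=
  concrete_main n hn Ω hΩ hcon hb hR f hf T h
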